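import Pool.Agent.P8H39.FDF.Stm

/-!
# Project FDF, package CNT: the final count
-/

set_option autoImplicit false
set_option linter.unusedSectionVars false

namespace Pool.Agent.P8H56.FDF

open Finset P8H39.FDF

section

variable {V : Type} [Fintype V] [DecidableEq V]

/-- the 3-element sets {x, y, z} with `miss r x y z` -/
def GG (r : V → V → Bool) : Finset (Finset V) :=
  (powersetCard 3 (univ : Finset V)).filter fun s => ∃ x y z, s = {x, y, z} ∧ miss r x y z = true

/-- ordered triples of distinct elements whose set is s -/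
lemma fibre_card (s : Finset V) :
    ((univ : Finset (V × V × V)).filter fun t => ({t.1, t.2.1, t.2.2} : Finset V) = s ∧
      t.1 ≠ t.2.1 ∧ t.1 ≠ t.2.2 ∧ t.2.1 ≠ t.2.2).card ≤ 6 := by
  rcases Finset.eq_empty_or_nonempty ((univ : Finset (V × V × V)).filter fun t =>
      ({t.1, t.2.1, t.2.2} : Finset V) = s ∧
      t.1 ≠ t.2.1 ∧ t.1 ≠ t.2.2 ∧ t.2.1 ≠ t.2.2) with h | ⟨⟨a, b, c⟩, h⟩
  · rw [h]
    simp
  · simp only [mem_filter, mem_univ, true_and] at h
    obtain ⟨rfl, hab, hac, hbc⟩ := h
    refine (Finset.card_le_card (t := {(a, b, c), (a, c, b), (b, a, c), (b, c, a), (c, a, b), (c, b, a)})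
      ?_).trans Finset.card_le_six
    rintro ⟨x, y, z⟩ h
    simp only [mem_filter, mem_univ, true_and] at h
    obtain ⟨h1, hxy, hxz, hyz⟩ := h
    have hx : x ∈ ({a, b, c} : Finset V) := by rw [← h1]; simp
    have hy : y ∈ ({a, b, c} : Finset V) := by rw [← h1]; simp
    have hz : z ∈ ({a, b, c} : Finset V) := by rw [← h1]; simp
    simp only [mem_insert, mem_singleton] at hx hy hz
    simp only [mem_insert, mem_singleton, Prod.mk.injEq]
    rcases hx with rfl | rfl | rfl <;> rcases hy with rfl | rfl | rfl <;>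
      rcases hz with rfl | rfl | rfl <;> simp_all

lemma sum_eq (r : V → V → Bool) :
    FF r * (Fintype.card V : ℝ) ^ 3 =
      (((univ : Finset (V × V × V)).filter fun t => miss r t.1 t.2.1 t.2.2 = true).card : ℝ) := by
  rcases isEmpty_or_nonempty V with hV | hV
  · simp
  have hN : (Fintype.card V : ℝ) ≠ 0 := by exact_mod_cast Fintype.card_ne_zero
  rw [Finset.card_filter]
  unfold FF fv av B
  push_cast
  simp only [← Finset.sum_div]
  rw [← Finset.univ_product_univ, Finset.sum_product]
  simp only [← Finset.univ_product_univ, Finset.sum_product]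
  field_simp

lemma card_bad (r : V → V → Bool) :
    ((univ : Finset (V × V × V)).filter fun t => miss r t.1 t.2.1 t.2.2 = true ∧
      ¬(t.1 ≠ t.2.1 ∧ t.1 ≠ t.2.2 ∧ t.2.1 ≠ t.2.2)).card ≤ 3 * Fintype.card V ^ 2 := by
  have h1 : ((univ : Finset (V × V × V)).filter fun t => miss r t.1 t.2.1 t.2.2 = true ∧
      ¬(t.1 ≠ t.2.1 ∧ t.1 ≠ t.2.2 ∧ t.2.1 ≠ t.2.2)) ⊆
      ((univ : Finset (V × V)).image fun p => (p.1, p.1, p.2)) ∪
      (((univ : Finset (V × V)).image fun p => (p.1, p.2, p.1)) ∪
      ((univ : Finset (V × V)).image fun p => (p.2, p.1, p.1))) := by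
    rintro ⟨x, y, z⟩ h
    simp only [mem_filter, mem_univ, true_and] at h
    obtain ⟨_, h⟩ := h
    simp only [mem_union, mem_image, mem_univ, true_and, Prod.exists, Prod.mk.injEq]
    by_cases h1 : x = y
    · exact Or.inl ⟨x, z, rfl, h1, rfl⟩
    · by_cases h2 : x = z
      · exact Or.inr (Or.inl ⟨x, y, rfl, rfl, h2⟩)
      · by_cases h3 : y = z
        · exact Or.inr (Or.inr ⟨y, x, rfl, rfl, h3⟩)
        · exact absurd ⟨h1, h2, h3⟩ h
  have h2 : (univ : Finset (V × V)).card = Fintype.card V ^ 2 := by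
    rw [Finset.card_univ, Fintype.card_prod, sq]
  calc _ ≤ _ := Finset.card_le_card h1
    _ ≤ _ := Finset.card_union_le _ _
    _ ≤ Fintype.card V ^ 2 + (Fintype.card V ^ 2 + Fintype.card V ^ 2) := by
        refine add_le_add ?_ ((Finset.card_union_le _ _).trans (add_le_add ?_ ?_))
        · exact Finset.card_image_le.trans h2.le
        · exact Finset.card_image_le.trans h2.le
        · exact Finset.card_image_le.trans h2.le
    _ = _ := by ring

lemma card_good (r : V → V → Bool) :
    ((univ : Finset (V × V × V)).filter fun t => miss r t.1 t.2.1 t.2.2 = true ∧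
      (t.1 ≠ t.2.1 ∧ t.1 ≠ t.2.2 ∧ t.2.1 ≠ t.2.2)).card ≤ 6 * (GG r).card := by
  refine Finset.card_le_mul_card_image_of_maps_to
    (f := fun t : V × V × V => ({t.1, t.2.1, t.2.2} : Finset V)) ?_ 6 ?_
  · rintro ⟨x, y, z⟩ h
    have h' := (mem_filter.1 h).2
    simp only at h'
    obtain ⟨h1, hxy, hxz, hyz⟩ := h'
    unfold GG
    refine mem_filter.2 ⟨mem_powersetCard.2 ⟨subset_univ _, ?_⟩, x, y, z, rfl, h1⟩
    exact Finset.card_eq_three.2 ⟨x, y, z, hxy, hxz, hyz, rfl⟩
  · intro s _
    refine (Finset.card_le_card ?_).trans (fibre_card s)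
    rintro ⟨x, y, z⟩ h
    simp only [mem_filter, mem_univ, true_and] at h ⊢
    exact ⟨h.2, h.1.2⟩

/-- the count -/
theorem cnt_gen (r : V → V → Bool) (h : Nonempty V → 4/9 ≤ FF r) :
    (4/9 : ℝ) * (Fintype.card V : ℝ) ^ 3 / 6 - (Fintype.card V : ℝ) ^ 2 / 2 ≤ ((GG r).card : ℝ) := by
  rcases isEmpty_or_nonempty V with hV | hV
  · simp
  have h1 := h hV
  have h2 := sum_eq r
  have h3 : ((univ : Finset (V × V × V)).filter fun t => miss r t.1 t.2.1 t.2.2 = true).card ≤
      6 * (GG r).card + 3 * Fintype.card V ^ 2 := by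
    refine le_trans ?_ (add_le_add (card_good r) (card_bad r))
    rw [← Finset.card_union_of_disjoint]
    · apply Finset.card_le_card
      intro t ht
      simp only [mem_filter, mem_univ, true_and, mem_union] at ht ⊢
      tauto
    · rw [Finset.disjoint_left]
      intro t ht ht'
      simp only [mem_filter, mem_univ, true_and] at ht ht'
      exact ht'.2 ht.2
  have h4 : (((univ : Finset (V × V × V)).filter fun t => miss r t.1 t.2.1 t.2.2 = true).card : ℝ) ≤
      6 * ((GG r).card : ℝ) + 3 * (Fintype.card V : ℝ) ^ 2 := by exact_mod_cast h3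
  have h5 : (4/9 : ℝ) * (Fintype.card V : ℝ) ^ 3 ≤ FF r * (Fintype.card V : ℝ) ^ 3 :=
    mul_le_mul_of_nonneg_right h1 (by positivity)
  linarith

end

/-- boolean check for four vertices: arguments are r a b, r b a, r a c, r c a, r a d, r d a, r b c, r c b, r b d, r d b,
r c d, r d c -/
def chk4 (ab ba ac ca ad da bc cb bd db cd dc : Bool) : Bool :=
  (ab && ba) || (ac && ca) || (ad && da) || (bc && cb) || (bd && db) || (cd && dc) ||
  (ab && bc && cd && da && !((ac || ca) || (bd || db))) ||
  (ab && bd && dc && ca && !((ad || da) || (bc || cb))) ||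
  (ac && cb && bd && da && !((ab || ba) || (cd || dc))) ||
  (ac && cd && db && ba && !((ad || da) || (cb || bc))) ||
  (ad && db && bc && ca && !((ab || ba) || (dc || cd))) ||
  (ad && dc && cb && ba && !((ac || ca) || (db || bd))) ||
  ((ab && ac) || (ba && bc) || (ca && cb) ||
    !(((ab || ba) && (ac || ca)) || ((ab || ba) && (bc || cb)) || ((ac || ca) && (bc || cb)))) ||
  ((ab && ad) || (ba && bd) || (da && db) ||
    !(((ab || ba) && (ad || da)) || ((ab || ba) && (bd || db)) || ((ad || da) && (bd || db)))) ||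
  ((ac && ad) || (ca && cd) || (da && dc) ||
    !(((ac || ca) && (ad || da)) || ((ac || ca) && (cd || dc)) || ((ad || da) && (cd || dc)))) ||
  ((bc && bd) || (cb && cd) || (db && dc) ||
    !(((bc || cb) && (bd || db)) || ((bc || cb) && (cd || dc)) || ((bd || db) && (cd || dc))))

lemma chk4_true : ∀ ab ba ac ca ad da bc cb bd db cd dc : Bool,
    chk4 ab ba ac ca ad da bc cb bd db cd dc = true := by
  decide +kernel

lemma four {V : Type} (r : V → V → Bool) (hO : Ori r) (hC : NoC4 r) (a b c d : V) :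
    miss r a b c = true ∨ miss r a b d = true ∨ miss r a c d = true ∨ miss r b c d = true := by
  have h := chk4_true (r a b) (r b a) (r a c) (r c a) (r a d) (r d a) (r b c) (r c b) (r b d) (r d b)
    (r c d) (r d c)
  have o : ∀ x y, (r x y && r y x) = false := by
    intro x y
    by_cases h : r x y = true
    · rw [hO x y h, Bool.and_false]
    · rw [Bool.eq_false_of_not_eq_true h, Bool.false_and]
  have q : ∀ x y z w, (r x y && r y z && r z w && r w x &&
      !((r x z || r z x) || (r y w || r w y))) = false := by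
    intro x y z w
    by_contra h
    have h1 := Bool.eq_true_of_not_eq_false h
    simp only [Bool.and_eq_true, Bool.not_eq_true', Bool.or_eq_false_iff] at h1
    obtain ⟨⟨⟨⟨h1, h2⟩, h3⟩, h4⟩, ⟨h5, h6⟩, h7, h8⟩ := h1
    rcases hC x y z w h1 h2 h3 h4 with h9 | h9
    · unfold adj at h9
      rw [h5, h6] at h9
      exact absurd h9 (by decide)
    · unfold adj at h9
      rw [h7, h8] at h9
      exact absurd h9 (by decide)
  unfold chk4 at h
  rw [o a b, o a c, o a d, o b c, o b d, o c d, q a b c d, q a b d c, q a c b d, q a c d b, q a d b c,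
    q a d c b] at h
  simp only [Bool.false_or] at h
  simp only [Bool.or_eq_true] at h
  unfold miss le1 adj
  simp only [Bool.or_eq_true]
  tauto

lemma miss_ne {V : Type} [DecidableEq V] [Fintype V] (r : V → V → Bool) (a b c : V) (hab : a ≠ b)
    (hac : a ≠ c) (hbc : b ≠ c) (h : miss r a b c = true) : ({a, b, c} : Finset V) ∈ GG r := by
  unfold GG
  exact mem_filter.2 ⟨mem_powersetCard.2 ⟨subset_univ _,
    Finset.card_eq_three.2 ⟨a, b, c, hab, hac, hbc, rfl⟩⟩, a, b, c, rfl, h⟩

/-- every 4-element set contains an element of GG r -/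
theorem k4_gen {V : Type} [DecidableEq V] [Fintype V] (r : V → V → Bool) (hO : Ori r) (hC : NoC4 r)
    (s : Finset V) (hs : s.card = 4) : ∃ t ∈ GG r, t ⊆ s := by
  obtain ⟨a, t, hat, rfl, ht⟩ := Finset.card_eq_succ.1 hs
  obtain ⟨b, c, d, hbc, hbd, hcd, rfl⟩ := Finset.card_eq_three.1 ht
  simp only [mem_insert, mem_singleton, not_or] at hat
  obtain ⟨hab, hac, had⟩ := hat
  rcases four r hO hC a b c d with h | h | h | h
  · exact ⟨_, miss_ne r a b c hab hac hbc h, by intro x; simp only [mem_insert, mem_singleton]; tauto⟩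
  · exact ⟨_, miss_ne r a b d hab had hbd h, by intro x; simp only [mem_insert, mem_singleton]; tauto⟩
  · exact ⟨_, miss_ne r a c d hac had hcd h, by intro x; simp only [mem_insert, mem_singleton]; tauto⟩
  · exact ⟨_, miss_ne r b c d hbc hbd hcd h, by intro x; simp only [mem_insert, mem_singleton]; tauto⟩

/-- CNT: from the conclusion of TOP, for graphs on `Fin n` -/
theorem t_CNT
    (htop : ∀ (V : Type) [Fintype V] [DecidableEq V] [Nonempty V] (r : V → V → Bool),
      Ori r → NoC4 r → 4/9 ≤ FF r) (n : ℕ) (r : Fin n → Fin n → Bool) (hO : Ori r) (hC : NoC4 r) :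
    (4/9 : ℝ) * (n : ℝ) ^ 3 / 6 - (n : ℝ) ^ 2 / 2 ≤ ((GG r).card : ℝ) ∧
    ∀ s ∈ powersetCard 4 (univ : Finset (Fin n)), ∃ t ∈ GG r, t ⊆ s := by
  refine ⟨?_, fun s hs => k4_gen r hO hC s (mem_powersetCard.1 hs).2⟩
  have h := cnt_gen r (fun hV => htop (Fin n) r hO hC)
  rwa [Fintype.card_fin] at h

end Pool.Agent.P8H56.FDF
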