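import Pool.Agent.P8H39.FDF.Stm

/-!
# Project FDF, package CORE: induced directed 4-cycles between two parts
-/

set_option autoImplicit false

namespace Pool.Agent.P8H56.FDF

open Finset P8H39.FDF

lemma adj_symm {V : Type} (r : V → V → Bool) (x y : V) : adj r x y = adj r y x :=
  Bool.or_comm _ _

lemma card_sdiff_le {V : Type} [DecidableEq V] {A B : Finset V} (h : A.card ≤ B.card) :
    (A \ B).card ≤ (B \ A).card := by
  have h1 := Finset.card_sdiff_add_card_inter A B
  have h2 := Finset.card_sdiff_add_card_inter B A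
  rw [Finset.inter_comm] at h2
  omega

/-- the final computation -/
lemma arith {k c a p q m1 m2 s t : ℤ} (hp : 0 ≤ p) (hq : 0 ≤ q) (hs : 0 ≤ s) (ht : 0 ≤ t)
    (h1 : p + s ≤ m1) (h2 : q + t ≤ m2) (hk : 2 * (m1 + m2) < k) (hc : k ≤ c) (ha : k ≤ a + q)
    (h : a * (c - 2 * p - t) ≤ c * (m2 + s)) : False := by
  have e1 : 0 ≤ c - 2 * p - t := by linarith
  have e2 : (k - q) * (c - 2 * p - t) ≤ a * (c - 2 * p - t) :=
    mul_le_mul_of_nonneg_right (by linarith) e1
  have e3 : (k - q) * (c - 2 * p - m2 + q) ≤ (k - q) * (c - 2 * p - t) :=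
    mul_le_mul_of_nonneg_left (by linarith) (by linarith)
  have e4 : c * (m2 + s) ≤ c * (m1 + m2 - p) :=
    mul_le_mul_of_nonneg_left (by linarith) (by linarith)
  have e5 : (k - q) * (c - 2 * p - m2 + q) ≤ c * (m1 + m2 - p) := by linarith
  have e6 : 0 ≤ (c - k) * (k - q - m1 - m2 + p) :=
    mul_nonneg (by linarith) (by linarith)
  have e7 : 0 ≤ q * (2 * p + m2 - q) := mul_nonneg hq (by linarith)
  have e8 : 0 < k * (k - m1 - 2 * m2 - p) := mul_pos (by linarith) (by linarith)
  nlinarith

theorem t_CORE : S_CORE := by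
  intro V _ r hO hC4 k X Y hk _ hX hA hB
  classical
  obtain ⟨xm, hxm, hm1⟩ := X.exists_max_image (fun x => (aN r x X).card + (nN r x Y).card) hX
  have hY : Y.Nonempty := by
    obtain ⟨x, hx⟩ := hX
    have h1 := hA x hx
    have h2 : 0 < (oN r x Y).card := by omega
    obtain ⟨y, hy⟩ := Finset.card_pos.1 h2
    exact ⟨y, (Finset.mem_filter.1 hy).1⟩
  obtain ⟨ym, hym, hm2⟩ := Y.exists_max_image (fun y => (aN r y Y).card + (nN r y X).card) hY
  refine ⟨xm, hxm, ym, hym, ?_⟩
  by_contra hcon
  push Not at hcon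
  set m1 := (aN r xm X).card + (nN r xm Y).card with hm1d
  set m2 := (aN r ym Y).card + (nN r ym X).card with hm2d
  obtain ⟨y0, hy0, hmin0⟩ := Y.exists_min_image (fun y => (oN r y X).card) hY
  set C := oN r y0 X with hCdef
  have hCk : k ≤ C.card := hB y0 hy0
  have hCne : C.Nonempty := Finset.card_pos.1 (by omega)
  let A0 : V → Finset V := fun x => oN r x Y \ aN r y0 Y
  obtain ⟨x, hxC, hminx⟩ := C.exists_min_image (fun x => (A0 x).card) hCne
  have hxX : x ∈ X := (mem_filter.1 hxC).1
  have hy0x : r y0 x = true := (mem_filter.1 hxC).2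
  have hA0 : k ≤ (A0 x).card + (aN r y0 Y).card := by
    have h1 := Finset.le_card_sdiff (aN r y0 Y) (oN r x Y)
    have h2 := hA x hxX
    change k ≤ (oN r x Y \ aN r y0 Y).card + _
    omega
  have hmem : ∀ z y', y' ∈ A0 z → y' ∈ Y ∧ r z y' = true ∧ adj r y0 y' = false := by
    intro z y' hy'
    obtain ⟨h1, h2⟩ := mem_sdiff.1 hy'
    obtain ⟨h3, h4⟩ := mem_filter.1 h1
    refine ⟨h3, h4, ?_⟩
    by_contra h5
    exact h2 (mem_filter.2 ⟨h3, by simpa using h5⟩)
  -- 4
  have h4 : ∀ y' ∈ A0 x, (C \ oN r y' X).card ≤ (aN r x X).card + (nN r y0 X).card := by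
    intro y' hy'
    obtain ⟨hy'Y, hxy', hnadj⟩ := hmem x y' hy'
    refine (card_sdiff_le (hmin0 y' hy'Y)).trans ?_
    refine (card_le_card ?_).trans (card_union_le _ _)
    intro x2 hx2
    obtain ⟨h1, h2⟩ := mem_sdiff.1 hx2
    obtain ⟨hx2X, hyx2⟩ := mem_filter.1 h1
    by_cases h3 : adj r y0 x2 = true
    · refine mem_union_left _ (mem_filter.2 ⟨hx2X, ?_⟩)
      have h5 : r y0 x2 = false := by
        by_contra h6
        exact h2 (mem_filter.2 ⟨hx2X, by simpa using h6⟩)
      have h6 : r x2 y0 = true := by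
        unfold adj at h3
        rw [h5] at h3
        simpa using h3
      rcases hC4 x y' x2 y0 hxy' hyx2 h6 hy0x with h7 | h7
      · exact h7
      · rw [adj_symm, hnadj] at h7
        exact absurd h7 (by decide)
    · exact mem_union_right _ (mem_filter.2 ⟨hx2X, by simpa using h3⟩)
  -- 5
  have h5 : ∀ x2 ∈ C, adj r x x2 = false →
      ((A0 x).filter fun y' => r y' x2 = true).card ≤ m2 + (nN r x Y).card := by
    intro x2 hx2 hnadj
    rcases ((A0 x).filter fun y' => r y' x2 = true).eq_empty_or_nonempty with h | ⟨y', hy'⟩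
    · rw [h, card_empty]
      exact Nat.zero_le _
    · obtain ⟨hy'A, hy'x2⟩ := mem_filter.1 hy'
      obtain ⟨hy'Y, hxy', hn0⟩ := hmem x y' hy'A
      have hsub : ((A0 x).filter fun y' => r y' x2 = true) ⊆ A0 x \ A0 x2 := by
        intro y1 hy1
        obtain ⟨h1, h2⟩ := mem_filter.1 hy1
        refine mem_sdiff.2 ⟨h1, fun h3 => ?_⟩
        have h6 := (hmem x2 y1 h3).2.1
        rw [hO y1 x2 h2] at h6
        exact absurd h6 (by decide)
      refine (card_le_card hsub).trans ((card_sdiff_le (hminx x2 hx2)).trans ?_)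
      have hsub2 : A0 x2 \ A0 x ⊆ aN r y' Y ∪ nN r x Y := by
        intro y2 hy2
        obtain ⟨h1, h2⟩ := mem_sdiff.1 hy2
        obtain ⟨hy2Y, hx2y2, hy2n⟩ := hmem x2 y2 h1
        have h3 : r x y2 = false := by
          by_contra h6
          refine h2 (mem_sdiff.2 ⟨mem_filter.2 ⟨hy2Y, by simpa using h6⟩, fun h7 => ?_⟩)
          have h8 := (mem_filter.1 h7).2
          rw [hy2n] at h8
          exact absurd h8 (by decide)
        by_cases h6 : adj r x y2 = true
        · refine mem_union_left _ (mem_filter.2 ⟨hy2Y, ?_⟩)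
          have h7 : r y2 x = true := by
            unfold adj at h6
            rw [h3] at h6
            simpa using h6
          rcases hC4 x y' x2 y2 hxy' hy'x2 hx2y2 h7 with h8 | h8
          · rw [hnadj] at h8
            exact absurd h8 (by decide)
          · exact h8
        · exact mem_union_right _ (mem_filter.2 ⟨hy2Y, by simpa using h6⟩)
      refine (card_le_card hsub2).trans ((card_union_le _ _).trans ?_)
      have h6 := hm2 y' hy'Y
      have h7 : (aN r y' Y).card + (nN r y' X).card ≤ m2 := h6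
      omega
  -- 6
  set C' := C.filter fun x2 => adj r x x2 = false with hC'
  have h6 : ∑ y' ∈ A0 x, (C'.filter fun x2 => r y' x2 = true).card =
      ∑ x2 ∈ C', ((A0 x).filter fun y' => r y' x2 = true).card :=
    Finset.sum_card_bipartiteAbove_eq_sum_card_bipartiteBelow (fun y' x2 => r y' x2 = true)
  have h7 : ∑ x2 ∈ C', ((A0 x).filter fun y' => r y' x2 = true).card ≤
      C.card * (m2 + (nN r x Y).card) := by
    refine (Finset.sum_le_card_nsmul C' _ (m2 + (nN r x Y).card) fun x2 hx2 => ?_).trans ?_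
    · obtain ⟨h1, h2⟩ := mem_filter.1 hx2
      exact h5 x2 h1 h2
    · rw [smul_eq_mul]
      exact Nat.mul_le_mul_right _ (card_le_card (filter_subset _ _))
  have h8 : ∀ y' ∈ A0 x, C.card ≤ (C'.filter fun x2 => r y' x2 = true).card +
      (2 * (aN r x X).card + (nN r y0 X).card) := by
    intro y' hy'
    have h9 := h4 y' hy'
    have hsub : C ⊆ (C'.filter fun x2 => r y' x2 = true) ∪ ((C \ oN r y' X) ∪ aN r x X) := by
      intro x2 hx2
      have hx2X : x2 ∈ X := (mem_filter.1 hx2).1
      by_cases h10 : adj r x x2 = true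
      · exact mem_union_right _ (mem_union_right _ (mem_filter.2 ⟨hx2X, h10⟩))
      · by_cases h11 : r y' x2 = true
        · exact mem_union_left _ (mem_filter.2 ⟨mem_filter.2 ⟨hx2, by simpa using h10⟩, h11⟩)
        · refine mem_union_right _ (mem_union_left _ (mem_sdiff.2 ⟨hx2, fun h12 => ?_⟩))
          exact h11 (mem_filter.1 h12).2
    have h10 := (card_le_card hsub).trans (card_union_le _ _)
    have h11 := card_union_le (C \ oN r y' X) (aN r x X)
    omega
  have h9 : (A0 x).card * C.card ≤ C.card * (m2 + (nN r x Y).card) +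
      (A0 x).card * (2 * (aN r x X).card + (nN r y0 X).card) := by
    have h10 : ∑ _y' ∈ A0 x, C.card ≤ ∑ y' ∈ A0 x, ((C'.filter fun x2 => r y' x2 = true).card +
        (2 * (aN r x X).card + (nN r y0 X).card)) := Finset.sum_le_sum h8
    rw [Finset.sum_const, smul_eq_mul, Finset.sum_add_distrib, Finset.sum_const, smul_eq_mul,
      h6] at h10
    omega
  have h10 : (aN r x X).card + (nN r x Y).card ≤ m1 := hm1 x hxX
  have h11 : (aN r y0 Y).card + (nN r y0 X).card ≤ m2 := hm2 y0 hy0
  refine arith (k := k) (c := C.card) (a := (A0 x).card) (p := (aN r x X).card)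
    (q := (aN r y0 Y).card) (m1 := m1) (m2 := m2) (s := (nN r x Y).card)
    (t := (nN r y0 X).card) (by positivity) (by positivity) (by positivity) (by positivity)
    (by exact_mod_cast h10) (by exact_mod_cast h11) (by exact_mod_cast hcon)
    (by exact_mod_cast hCk) (by exact_mod_cast hA0) ?_
  have h12 : ((A0 x).card : ℤ) * C.card ≤ C.card * ((m2 : ℤ) + (nN r x Y).card) +
      (A0 x).card * (2 * (aN r x X).card + (nN r y0 X).card) := by exact_mod_cast h9
  linarith

end Pool.Agent.P8H56.FDF
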