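import Pool.Agent.P8H39.FDF.CDef
import Pool.Agent.P8H7.FDF.Glob

/-!
# Project FDF, package CTG: the sums of the targets
-/

set_option autoImplicit false
set_option linter.unusedSectionVars false

namespace Pool.Agent.P8H56.FDF

open Finset P8H39.FDF Pool.Agent.P8H7.FDF

section

variable {V : Type} [Fintype V] [Nonempty V]

lemma cast_S5 (r : V → V → Bool) (f : ℕ → ℕ → ℕ → ℕ → ℕ → ℕ → ℕ → ℕ → ℕ → ℕ → ℤ) :
    ((S5 r f : ℤ) : ℝ) = (av fun a => av fun b => av fun c => av fun d => av fun e =>
      ((f (rel r a b) (rel r a c) (rel r b c) (rel r a d) (rel r b d) (rel r c d)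
      (rel r a e) (rel r b e) (rel r c e) (rel r d e) : ℤ) : ℝ)) * (Fintype.card V : ℝ) ^ 5 := by
  have hN : (Fintype.card V : ℝ) ≠ 0 := by exact_mod_cast Fintype.card_ne_zero
  unfold S5 av
  simp only [← Finset.sum_div]
  push_cast
  field_simp

lemma rel_one (r : V → V → Bool) (a b : V) :
    (((if rel r a b = 1 then 1 else 0 : ℤ)) : ℝ) = B (r a b) := by
  unfold rel B
  by_cases h : r a b = true
  · simp [h]
  · by_cases h' : r b a = true
    · simp [h, h']
    · simp [h, h']

lemma rel_zero (r : V → V → Bool) (a b : V) : rel r a b = 0 ↔ adj r a b = false := by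
  unfold rel adj
  by_cases h : r a b = true
  · simp [h]
  · by_cases h' : r b a = true
    · simp [h, h']
    · simp [h, h']

lemma adj_symm (r : V → V → Bool) (a b : V) : adj r a b = adj r b a := by
  unfold adj
  exact Bool.or_comm _ _

lemma ad_rel (r : V → V → Bool) (a b : V) : ((ad (rel r a b) : ℤ) : ℝ) = B (adj r a b) := by
  unfold ad B
  by_cases h : adj r a b = false
  · rw [if_pos ((rel_zero r a b).2 h)]
    simp [h]
  · rw [if_neg (fun h1 => h ((rel_zero r a b).1 h1))]
    simp [Bool.of_not_eq_false h]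

lemma clD_rel (r : V → V → Bool) (x y z w : V) :
    clD (rel r x w) (rel r y w) (rel r z w) = (cls r x y z w).val := by
  unfold clD cls
  simp only [ne_eq, rel_zero, adj_symm r x w, adj_symm r y w, adj_symm r z w]
  cases adj r w x <;> cases adj r w y <;> cases adj r w z <;> rfl

lemma tg1_rel (r : V → V → Bool) (a b c : V) (n3 n4 n5 n6 n7 n8 n9 n10 : ℕ) :
    ((tg1 (rel r a b) (rel r a c) n3 n4 n5 n6 n7 n8 n9 n10 : ℤ) : ℝ) =
      18000 * (B (r a b) * B (r a c)) - 12000 * B (r a b) + 2000 := by
  unfold tg1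
  rw [← rel_one, ← rel_one]
  push_cast
  ring

lemma tg3_rel (r : V → V → Bool) (a b : V) (n2 n3 n4 n5 n6 n7 n8 n9 n10 : ℕ) :
    ((tg3 (rel r a b) n2 n3 n4 n5 n6 n7 n8 n9 n10 : ℤ) : ℝ) =
      18000 * (1 - B (adj r a b)) := by
  unfold tg3
  push_cast
  rw [ad_rel]

lemma tg2_rel (r : V → V → Bool) (x y z d e : V) :
    ((tg2 (rel r x y) (rel r x z) (rel r y z) (rel r x d) (rel r y d) (rel r z d)
      (rel r x e) (rel r y e) (rel r z e) (rel r d e) : ℤ) : ℝ) =
      B (tri r x y z) * (18000 * (6 * B (decide (cls r x y z d = cls r x y z e) &&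
        !decide (cls r x y z d = 3) && adj r d e) + B (decide (cls r x y z d = 3))) - 81) := by
  unfold tg2
  rw [clD_rel, clD_rel]
  have h1 : B (tri r x y z) = ((ad (rel r x y) : ℤ) : ℝ) * ((ad (rel r x z) : ℤ) : ℝ) *
      ((ad (rel r y z) : ℤ) : ℝ) := by
    rw [ad_rel, ad_rel, ad_rel]
    unfold tri B
    cases adj r x y <;> cases adj r x z <;> cases adj r y z <;> simp
  have h2 : B (decide (cls r x y z d = cls r x y z e) &&
        !decide (cls r x y z d = 3) && adj r d e) =
      (((if (cls r x y z d).val = (cls r x y z e).val ∧ (cls r x y z d).val ≠ 3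
        then ad (rel r d e) else 0 : ℤ)) : ℝ) := by
    by_cases h3 : cls r x y z d = cls r x y z e
    · by_cases h4 : cls r x y z d = 3
      · rw [if_neg (by rw [h4]; simp)]
        simp [h4, B]
      · have h5 : (cls r x y z d).val ≠ 3 := fun h => h4 (Fin.ext h)
        rw [if_pos ⟨by rw [h3], h5⟩, ad_rel]
        simp [h3 ▸ h4, h3]
    · rw [if_neg (fun h => h3 (Fin.ext h.1))]
      simp [h3, B]
  have h3 : B (decide (cls r x y z d = 3)) =
      (((if (cls r x y z d).val = 3 then 1 else 0 : ℤ)) : ℝ) := by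
    by_cases h4 : cls r x y z d = 3
    · rw [if_pos (by rw [h4]; rfl)]
      simp [h4, B]
    · rw [if_neg (fun h : (cls r x y z d).val = 3 => h4 (Fin.ext h))]
      simp [h4, B]
  rw [h1, h2, h3]
  push_cast
  ring

end

theorem t_CTG : S_CTG := by
  intro V _ _ _ r _
  refine ⟨?_, ?_, ?_⟩
  · rw [cast_S5]
    congr 1
    simp only [tg1_rel, av_const, av_add, av_sub, av_mul, av_mulr]
    have h1 : V3 r = av (fun x => dp r x * dp r x) - (2/3) * av (fun x => dp r x) + 1/9 := by
      unfold V3
      rw [show (fun x => (dp r x - 1/3)^2) =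
        fun x => (dp r x * dp r x - (2/3) * dp r x) + 1/9 from by funext x; ring,
        av_add, av_sub, av_mul, av_const]
    rw [h1]
    unfold dp
    ring
  · rw [cast_S5]
    congr 1
    simp only [tg2_rel, av_const, av_add, av_sub, av_mul]
    rw [← av_mul]
    refine congrArg av ?_
    funext a
    rw [← av_mul]
    refine congrArg av ?_
    funext b
    rw [← av_mul]
    refine congrArg av ?_
    funext c
    unfold ce cu
    ring
  · rw [cast_S5]
    congr 1
    simp only [tg3_rel, av_const, av_sub, av_mul]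
    unfold rho
    ring

end Pool.Agent.P8H56.FDF
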