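import Pool.Agent.P8H56.FDF.Core

/-!
# Project FDF, package LEM: counting imperfect pairs
-/

set_option autoImplicit false

set_option linter.unusedSectionVars false

namespace Pool.Agent.P8H56.FDF

open Finset P8H39.FDF

section

variable {V : Type} [DecidableEq V] (r : V → V → Bool)

/-- indicators of adjacent and non-adjacent pairs -/
def ea (x y : V) : ℕ := if adj r x y = true then 1 else 0
def na (x y : V) : ℕ := if adj r x y = false then 1 else 0

lemma ea_symm (x y : V) : ea r x y = ea r y x := by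
  unfold ea
  rw [adj_symm]

lemma na_symm (x y : V) : na r x y = na r y x := by
  unfold na
  rw [adj_symm]

lemma ea_self (hO : Ori r) (x : V) : ea r x x = 0 := by
  unfold ea adj
  rw [if_neg]
  intro h
  have h1 : r x x = true := by simpa using h
  rw [hO x x h1] at h1
  exact absurd h1 (by decide)

lemma na_le (x y : V) : na r x y ≤ 1 := by
  unfold na
  split_ifs <;> omega

lemma card_aN (x : V) (X : Finset V) : (aN r x X).card = ∑ y ∈ X, ea r x y :=
  Finset.card_filter _ _

lemma card_nN (x : V) (X : Finset V) : (nN r x X).card = ∑ y ∈ X, na r x y :=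
  Finset.card_filter _ _

lemma inner_insert (hO : Ori r) {x0 : V} {X : Finset V} (hx : x0 ∈ X) :
    ∑ x ∈ X, (aN r x X).card = (∑ x ∈ X.erase x0, (aN r x (X.erase x0)).card) +
      2 * (aN r x0 X).card := by
  have h0 : x0 ∉ X.erase x0 := notMem_erase _ _
  have hX : insert x0 (X.erase x0) = X := insert_erase hx
  simp_rw [card_aN]
  conv_lhs => rw [← hX]
  rw [sum_insert h0]
  have e1 : ∑ x ∈ X.erase x0, ∑ y ∈ insert x0 (X.erase x0), ea r x y =
      ∑ x ∈ X.erase x0, ea r x0 x + ∑ x ∈ X.erase x0, ∑ y ∈ X.erase x0, ea r x y := by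
    rw [← sum_add_distrib]
    refine sum_congr rfl fun x _ => ?_
    rw [sum_insert h0, ea_symm r x x0]
  have e2 : ∑ y ∈ X, ea r x0 y = ∑ x ∈ X.erase x0, ea r x0 x := by
    conv_lhs => rw [← hX]
    rw [sum_insert h0, ea_self r hO, zero_add]
  rw [e1, hX, e2]
  ring

lemma cross_insert {x0 y0 : V} {X Y : Finset V} (hx : x0 ∈ X) (hy : y0 ∈ Y) :
    ((∑ x ∈ X.erase x0, (nN r x (Y.erase y0)).card) + (nN r x0 Y).card + (nN r y0 X).card ≤
      (∑ x ∈ X, (nN r x Y).card) + 1) := by
  have h0 : x0 ∉ X.erase x0 := notMem_erase _ _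
  have h1 : y0 ∉ Y.erase y0 := notMem_erase _ _
  have hX : insert x0 (X.erase x0) = X := insert_erase hx
  have hY : insert y0 (Y.erase y0) = Y := insert_erase hy
  simp_rw [card_nN]
  have e1 : ∑ x ∈ X, ∑ y ∈ Y, na r x y = ∑ y ∈ Y, na r x0 y + (∑ x ∈ X.erase x0, na r y0 x +
      ∑ x ∈ X.erase x0, ∑ y ∈ Y.erase y0, na r x y) := by
    conv_lhs => rw [← hX]
    rw [sum_insert h0, ← sum_add_distrib]
    congr 1
    refine sum_congr rfl fun x _ => ?_
    conv_lhs => rw [← hY]
    rw [sum_insert h1, na_symm r x y0]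
  have e2 : ∑ x ∈ X, na r y0 x = na r y0 x0 + ∑ x ∈ X.erase x0, na r y0 x := by
    conv_lhs => rw [← hX]
    rw [sum_insert h0]
  have e3 := na_le r y0 x0
  rw [e1, e2]
  omega

lemma card_oN_erase {x y0 : V} {Y : Finset V} {k : ℕ} (h : k + 1 ≤ (oN r x Y).card) :
    k ≤ (oN r x (Y.erase y0)).card := by
  have e : oN r x (Y.erase y0) = (oN r x Y).erase y0 := by
    unfold oN
    rw [filter_erase]
  rw [e]
  have := pred_card_le_card_erase (s := oN r x Y) (a := y0)
  omega

end

theorem t_LEM : S_LEM := by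
  intro V _ r hO hC4 k
  induction k with
  | zero =>
    intro X Y _ _ _ _
    simp
  | succ k ih =>
    intro X Y hXY hX hA hB
    obtain ⟨x0, hx0, y0, hy0, h0⟩ := t_CORE V r hO hC4 (k + 1) X Y (by omega) hXY hX hA hB
    rcases Nat.eq_zero_or_pos k with rfl | hk
    · norm_num
    · have hXn : (X.erase x0).Nonempty := by
        have h1 : 1 < (oN r x0 Y).card := by
          have := hA x0 hx0
          omega
        obtain ⟨y, hy, -⟩ := Finset.exists_mem_ne h1 y0
        have hyY : y ∈ Y := (mem_filter.1 hy).1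
        have h2 : 1 < (oN r y X).card := by
          have := hB y hyY
          omega
        obtain ⟨x, hx, hxne⟩ := Finset.exists_mem_ne h2 x0
        exact ⟨x, mem_erase.2 ⟨hxne, (mem_filter.1 hx).1⟩⟩
      have h1 := ih (X.erase x0) (Y.erase y0)
        (hXY.mono (erase_subset _ _) (erase_subset _ _)) hXn
        (fun x hx => card_oN_erase r (hA x (mem_of_mem_erase hx)))
        (fun y hy => card_oN_erase r (hB y (mem_of_mem_erase hy)))
      have h2 := inner_insert r hO hx0
      have h3 := inner_insert r hO hy0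
      have h4 := cross_insert r hx0 hy0
      have h5 : U2 r (X.erase x0) (Y.erase y0) + k ≤ U2 r X Y + 1 := by
        unfold U2
        omega
      nlinarith

end Pool.Agent.P8H56.FDF
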